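import Pool.Agent.LE.StmtsP
import Pool.Agent.Helper54_LEW.CPR
import Pool.Agent.Helper54_LE.LYA

/-!
# CLP: the probability of the clusters, preparations
-/

set_option autoImplicit false

open MeasureTheory ProbabilityTheory Function Filter

open scoped ENNReal BigOperators Topology NNReal

noncomputable section

namespace Pool.Agent.LE.CL.H81

open Pool.Agent.Anderson hiding box mem_box card_box
open Pool.Agent.Loc Pool.Agent.Mob Pool.Agent.Helper54.Bal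
  Pool.Agent.Helper96.EXP Pool.Agent.BED
open Pool.Agent.LE.MN

theorem clp_nums (c₀ K₁ Q S : ℝ) (hc₀ : 0 < c₀) (hK₁ : 1 ≤ K₁) (hQ : 0 ≤ Q) (hS : 0 ≤ S) :
    ∃ l₀ : ℝ, 3 ≤ l₀ ∧ ∀ l : ℝ, l₀ ≤ l →
      K₁ * Real.exp (-l) ^ 2 * l ^ 4 ≤ c₀ ∧ Q * l ^ 2 + 7 ≤ Real.exp l ∧ S * l ≤ Real.exp l := by
  have h0 : 0 < 4 * K₁ / c₀ := by positivity
  refine ⟨4 * K₁ / c₀ + 6 * (Q + 7) + 2 * S + 20, by linarith, fun l hl => ?_⟩
  have hl1 : 4 * K₁ / c₀ ≤ l := by linarith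
  have hl2 : 6 * (Q + 7) ≤ l := by linarith
  have hl3 : 2 * S ≤ l := by linarith
  have hl4 : 20 ≤ l := by linarith
  have hl0 : 0 < l := by linarith
  refine ⟨?_, ?_, ?_⟩
  · have h1 := Real.pow_div_factorial_le_exp (2 * l) (by linarith) 5
    have h2 : Real.exp (-l) ^ 2 = (Real.exp (2 * l))⁻¹ := by
      rw [← Real.exp_nat_mul, ← Real.exp_neg]
      congr 1
      push_cast
      ring
    have h3 : l ^ 5 / 4 ≤ Real.exp (2 * l) := by
      refine le_trans ?_ h1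
      have : ((Nat.factorial 5 : ℕ) : ℝ) = 120 := by norm_num [Nat.factorial]
      rw [this]
      have h5 : 0 < l ^ 5 := by positivity
      nlinarith
    have h4 : 0 < l ^ 5 / 4 := by positivity
    rw [h2]
    have h5 : (Real.exp (2 * l))⁻¹ ≤ (l ^ 5 / 4)⁻¹ := inv_anti₀ h4 h3
    calc K₁ * (Real.exp (2 * l))⁻¹ * l ^ 4 ≤ K₁ * (l ^ 5 / 4)⁻¹ * l ^ 4 := by gcongr
      _ = 4 * K₁ / l := by field_simp
      _ ≤ c₀ := by
        rw [div_le_iff₀ hl0]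
        rw [div_le_iff₀ hc₀] at hl1
        linarith
  · have h1 := Real.pow_div_factorial_le_exp l hl0.le 3
    have h2 : ((Nat.factorial 3 : ℕ) : ℝ) = 6 := by norm_num [Nat.factorial]
    rw [h2] at h1
    refine le_trans ?_ h1
    rw [le_div_iff₀ (by norm_num)]
    have h3 : l ^ 3 = l ^ 2 * l := by ring
    have h4 : l ^ 2 * (6 * (Q + 7)) ≤ l ^ 2 * l := by gcongr
    have h5 : (1 : ℝ) ≤ l ^ 2 := one_le_pow₀ (by linarith)
    rw [h3]
    linarith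
  · have h1 := Real.pow_div_factorial_le_exp l hl0.le 2
    have h2 : ((Nat.factorial 2 : ℕ) : ℝ) = 2 := by norm_num [Nat.factorial]
    rw [h2] at h1
    refine le_trans ?_ h1
    rw [le_div_iff₀ (by norm_num)]
    have h3 : l ^ 2 = l * l := by ring
    have h4 : 2 * S * l ≤ l * l := by gcongr
    rw [h3]
    linarith

theorem olm {a b : ℝ} (ha : 1 ≤ a) (hb : 1 ≤ b) : 1 ≤ a * b := by nlinarith

theorem olm' {a b : ℝ} (ha : 1 ≤ a) (hb : 0 ≤ b) : b ≤ a * b := by nlinarith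

theorem num_d {d l L : ℝ} (h : 0 < d * l) (hL : 0.6931471803 < L) : d * (3 * l) < 5 * d * l * L := by
  nlinarith

theorem num_a {A l : ℝ} (hA : 1 ≤ A) (hl : 0 < l) : 3 * l ≤ (A + 3) * l := by nlinarith

theorem kf_of {d : ℕ} (dua : DuaStmt) {B : Finset (Site d)} {V : Site d → ℝ} {E η τ : ℝ}
    (hη : 0 < η) (hτ : 0 ≤ τ)
    (h : ∀ v : B → ℂ, nsq (Matrix.mulVec (XM (Csq B E η hη) (fun y => V y)) v) ≤
      τ ^ 2 * nsq v) : KF B V E η τ := by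
  intro w _
  have h1 := dua d B (fun y : B => w y) V E η τ (Csq B E η hη) hη hτ (Csq_herm _ _ _ hη)
    (Csq_sq _ _ _ hη) h
  simp only [hatS_eq_hatV]
  exact h1

/-- the bad events -/
theorem bad_prob {d : ℕ} {σ : ℝ} (hσ : σ ≠ 0) (E a q : ℝ) (N R : ℕ) (b : Site d)
    (P : (Site d → ℝ) → Prop) (hq : 0 ≤ q) (hP : PP d (gl σ) {V | ¬ P V} ≤ ENNReal.ofReal q) :
    PP d (gl σ) {V | ¬ ((RM V (box 0 N) E).det ≠ 0 ∧ (∀ x ∈ box b (R + 1), |V x| ≤ 1) ∧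
      (∀ x ∈ box b (R + 1), ∀ y ∈ box b (R + 1), |gr V (box 0 N) E x y| ≤ Real.exp a) ∧ P V)} ≤
      ENNReal.ofReal ((2 * R + 3 : ℝ) ^ d * (4 * Real.exp (-(1 / |σ|))) +
        (2 * R + 3 : ℝ) ^ (2 * d) * (6 * (1 / |σ|) / Real.exp a) + q) := by
  have hν := bddDens_gl hσ
  have hs : 0 < |σ| := abs_pos.2 hσ
  set S := box b (R + 1) with hS
  have hcard : (S.card : ℝ) = (2 * R + 3 : ℝ) ^ d := by
    rw [hS, card_box]
    push_cast
    ring_nf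
  have hsub : {V : Site d → ℝ | ¬ ((RM V (box 0 N) E).det ≠ 0 ∧ (∀ x ∈ S, |V x| ≤ 1) ∧
      (∀ x ∈ S, ∀ y ∈ S, |gr V (box 0 N) E x y| ≤ Real.exp a) ∧ P V)} ⊆
      {V | (RM V (box 0 N) E).det = 0} ∪ ((⋃ x ∈ S, {V | 1 < |V x|}) ∪
        ((⋃ x ∈ S, ⋃ y ∈ S, {V | Real.exp a < |gr V (box 0 N) E x y|}) ∪ {V | ¬ P V})) := by
    intro V hV
    by_contra hcon
    simp only [Set.mem_union, not_or, Set.mem_iUnion, Set.mem_ofPred_eq, not_exists, not_not,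
      exists_prop] at hcon
    obtain ⟨h1, h2, h3, h4⟩ := hcon
    apply hV
    exact ⟨h1, fun x hx => not_lt.1 fun h => h2 x ⟨hx, h⟩,
      fun x hx y hy => not_lt.1 fun h => h3 x ⟨hx, y, hy, h⟩, h4⟩
  have p1 : PP d (gl σ) {V | (RM V (box 0 N) E).det = 0} = 0 := H54.PP_det hν _ _
  have p2 : PP d (gl σ) (⋃ x ∈ S, {V | 1 < |V x|}) ≤
      ENNReal.ofReal ((2 * R + 3 : ℝ) ^ d * (4 * Real.exp (-(1 / |σ|)))) := by
    refine (measure_biUnion_finset_le _ _).trans ?_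
    refine (Finset.sum_le_sum fun x _ => H54W.site_tail hσ 1 x).trans (le_of_eq ?_)
    rw [Finset.sum_const, nsmul_eq_mul, ← ENNReal.ofReal_natCast,
      ← ENNReal.ofReal_mul (Nat.cast_nonneg _), hcard]
  have p3 : PP d (gl σ) (⋃ x ∈ S, ⋃ y ∈ S, {V | Real.exp a < |gr V (box 0 N) E x y|}) ≤
      ENNReal.ofReal ((2 * R + 3 : ℝ) ^ (2 * d) * (6 * (1 / |σ|) / Real.exp a)) := by
    refine (measure_biUnion_finset_le _ _).trans ?_
    refine (Finset.sum_le_sum fun x _ => (measure_biUnion_finset_le _ _).trans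
      (Finset.sum_le_sum fun y _ => H54.PP_weak hν _ E x y (Real.exp_pos a))).trans
        (le_of_eq ?_)
    rw [Finset.sum_const, Finset.sum_const, nsmul_eq_mul, nsmul_eq_mul,
      ← ENNReal.ofReal_natCast, ← ENNReal.ofReal_mul (Nat.cast_nonneg _),
      ← ENNReal.ofReal_mul (Nat.cast_nonneg _), hcard]
    congr 1
    ring
  refine (measure_mono hsub).trans ((measure_union_le _ _).trans ?_)
  rw [p1, zero_add]
  refine (measure_union_le _ _).trans ?_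
  rw [add_assoc, ENNReal.ofReal_add (by positivity) (by positivity),
    ENNReal.ofReal_add (by positivity) hq]
  exact add_le_add p2 ((measure_union_le _ _).trans (add_le_add p3 hP))

/-- the scales -/
theorem clp_scales {d : ℕ} {l η C₁ : ℝ} (hd0 : (3 : ℝ) ≤ d) (hl3 : 3 ≤ l) (hη0 : 0 < η)
    (hinv1 : 1 ≤ 1 / η) (hinv : 1 / η ≤ Real.exp (2 * l)) (hC₁1 : 1 ≤ C₁)
    (hQ : 24 * d * C₁ * l ^ 2 + 7 ≤ Real.exp l) :
    ∃ R₁ J : ℕ, C₁ * l / η ≤ R₁ ∧ 5 * d * l ≤ J ∧ (J : ℝ) ≤ 6 * d * l ∧ 1 ≤ J ∧ 1 ≤ R₁ ∧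
      (2 * ((J * R₁ : ℕ) : ℝ) + 7) ≤ Real.exp (3 * l) := by
  have hlp : 0 < l := by linarith
  have hR₁l : C₁ * l / η ≤ ⌈C₁ * l / η⌉₊ := Nat.le_ceil _
  have hR₁u : (⌈C₁ * l / η⌉₊ : ℝ) ≤ 2 * (C₁ * l) * (1 / η) := by
    have h1 : (⌈C₁ * l / η⌉₊ : ℝ) < C₁ * l / η + 1 := Nat.ceil_lt_add_one (by positivity)
    have h2 : 1 ≤ C₁ * l * (1 / η) := by
      have h3 : 1 ≤ C₁ * l := olm hC₁1 (by linarith)
      exact olm h3 hinv1
    have h3 : C₁ * l / η = C₁ * l * (1 / η) := by ring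
    rw [h3] at h1
    rw [h3]
    linarith
  have hJl : 5 * d * l ≤ ⌈5 * d * l⌉₊ := Nat.le_ceil _
  have hJu : (⌈5 * d * l⌉₊ : ℝ) ≤ 6 * d * l := by
    have h1 : (⌈5 * d * l⌉₊ : ℝ) < 5 * d * l + 1 := Nat.ceil_lt_add_one (by positivity)
    have h2 : 1 ≤ (d : ℝ) * l := olm (by linarith) (by linarith)
    linarith
  have hJ1 : 1 ≤ ⌈5 * d * l⌉₊ := by
    have h1 : (0 : ℝ) < ⌈5 * d * l⌉₊ := by
      have : 0 < 5 * (d : ℝ) * l := by positivity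
      linarith
    exact_mod_cast h1
  have hR₁1 : 1 ≤ ⌈C₁ * l / η⌉₊ := by
    have h1 : (0 : ℝ) < ⌈C₁ * l / η⌉₊ := by
      have : 0 < C₁ * l / η := by positivity
      linarith
    exact_mod_cast h1
  refine ⟨⌈C₁ * l / η⌉₊, ⌈5 * d * l⌉₊, hR₁l, hJl, hJu, hJ1, hR₁1, ?_⟩
  have h1 : ((⌈5 * d * l⌉₊ * ⌈C₁ * l / η⌉₊ : ℕ) : ℝ) ≤
      (6 * d * l) * (2 * (C₁ * l) * (1 / η)) := by
    push_cast
    gcongr
  calc (2 * ((⌈5 * d * l⌉₊ * ⌈C₁ * l / η⌉₊ : ℕ) : ℝ) + 7) ≤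
        2 * ((6 * d * l) * (2 * (C₁ * l) * (1 / η))) + 7 * (1 / η) := by
        linarith
    _ = (24 * d * C₁ * l ^ 2 + 7) * (1 / η) := by ring
    _ ≤ Real.exp l * Real.exp (2 * l) := by gcongr
    _ = Real.exp (3 * l) := by
      rw [← Real.exp_add]
      ring_nf

/-- the probability of the bad events -/
theorem clp_tail {d : ℕ} {A l s R : ℝ} (hl3 : 3 ≤ l) (hR0 : 0 ≤ R)
    (hRu : (2 * R + 7 : ℝ) ≤ Real.exp (3 * l)) (hS : (A + 3 * d + 3) * l ≤ Real.exp l)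
    (hs1 : 1 / s = Real.exp l) :
    (2 * R + 3 : ℝ) ^ d * (4 * Real.exp (-(1 / s))) +
      (2 * R + 3 : ℝ) ^ (2 * d) * (6 * (1 / s) / Real.exp ((A + 6 * d + 5) * l)) +
      Real.exp (-((A + 3) * l)) ≤ Real.exp (-(A * l)) := by
  have hlp : 0 < l := by linarith
  have h23 : (2 * R + 3 : ℝ) ≤ Real.exp (3 * l) := by linarith
  have he3 : (20 : ℝ) ≤ Real.exp (3 * l) := by
    have h1 : Real.exp 9 ≤ Real.exp (3 * l) := Real.exp_le_exp.2 (by linarith)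
    have h2 := Real.quadratic_le_exp_of_nonneg (show (0 : ℝ) ≤ 9 by norm_num)
    linarith
  have hAl : 0 < Real.exp (-(A * l)) := Real.exp_pos _
  have t1 : (2 * R + 3 : ℝ) ^ d * (4 * Real.exp (-(1 / s))) ≤
      1 / 4 * Real.exp (-(A * l)) := by
    rw [hs1]
    have h1 : Real.exp (-Real.exp l) ≤ Real.exp (-((A + 3 * d + 3) * l)) :=
      Real.exp_le_exp.2 (by linarith)
    calc (2 * R + 3 : ℝ) ^ d * (4 * Real.exp (-Real.exp l))
        ≤ (Real.exp (3 * l)) ^ d * (4 * Real.exp (-((A + 3 * d + 3) * l))) := by gcongr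
      _ = 4 * (Real.exp (-(A * l)) * Real.exp (-(3 * l))) := by
        rw [← Real.exp_nat_mul, ← Real.exp_add]
        have h2 : Real.exp (d * (3 * l)) * (4 * Real.exp (-((A + 3 * d + 3) * l))) =
            4 * (Real.exp (d * (3 * l)) * Real.exp (-((A + 3 * d + 3) * l))) := by ring
        rw [h2, ← Real.exp_add]
        congr 2
        ring
      _ ≤ 4 * (Real.exp (-(A * l)) * (20 : ℝ)⁻¹) := by
        rw [Real.exp_neg (3 * l)]
        gcongr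
      _ ≤ 1 / 4 * Real.exp (-(A * l)) := by linarith
  have t2 : (2 * R + 3 : ℝ) ^ (2 * d) * (6 * (1 / s) / Real.exp ((A + 6 * d + 5) * l)) ≤
      1 / 2 * Real.exp (-(A * l)) := by
    rw [hs1]
    calc (2 * R + 3 : ℝ) ^ (2 * d) * (6 * Real.exp l / Real.exp ((A + 6 * d + 5) * l))
        ≤ (Real.exp (3 * l)) ^ (2 * d) * (6 * Real.exp l / Real.exp ((A + 6 * d + 5) * l)) := by
          gcongr
      _ = 6 * (Real.exp (-(A * l)) * Real.exp (-(3 * l)) * Real.exp (-l)) := by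
        rw [← Real.exp_nat_mul, mul_div_assoc, ← Real.exp_sub]
        have h2 : Real.exp (((2 * d : ℕ) : ℝ) * (3 * l)) *
            (6 * Real.exp (l - (A + 6 * d + 5) * l)) =
            6 * (Real.exp (((2 * d : ℕ) : ℝ) * (3 * l)) *
              Real.exp (l - (A + 6 * d + 5) * l)) := by ring
        rw [h2, ← Real.exp_add, ← Real.exp_add, ← Real.exp_add]
        congr 2
        push_cast
        ring
      _ ≤ 6 * (Real.exp (-(A * l)) * (20 : ℝ)⁻¹ * 1) := by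
        rw [Real.exp_neg (3 * l)]
        have h3 : Real.exp (-l) ≤ 1 := Real.exp_le_one_iff.2 (by linarith)
        gcongr
      _ ≤ 1 / 2 * Real.exp (-(A * l)) := by linarith
  have t3 : Real.exp (-((A + 3) * l)) ≤ 1 / 4 * Real.exp (-(A * l)) := by
    calc Real.exp (-((A + 3) * l)) = Real.exp (-(A * l)) * Real.exp (-(3 * l)) := by
          rw [← Real.exp_add]
          congr 1
          ring
      _ ≤ Real.exp (-(A * l)) * (20 : ℝ)⁻¹ := by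
        rw [Real.exp_neg (3 * l)]
        gcongr
      _ ≤ 1 / 4 * Real.exp (-(A * l)) := by linarith
  linarith

/-- the final lower bound for the number -/
theorem clp_pow {d : ℕ} {K K₁ c₃ σ l η : ℝ} (hd : 3 ≤ d) (hc₃0 : 0 < c₃) (hc₃1 : c₃ ≤ 1)
    (hη : η = K₁ * σ ^ 2 * l ^ 4) (hη0 : 0 < η) (hK : K₁ * (2 / c₃) ≤ K)
    (hx : 0 < K * σ ^ 2 * l ^ 4) :
    (K * σ ^ 2 * l ^ 4) ^ (-(d : ℝ)) ≤ c₃ / 2 * (1 / η) ^ d := by
  rw [Real.rpow_neg hx.le, Real.rpow_natCast, ← inv_pow]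
  have h1 : (K * σ ^ 2 * l ^ 4)⁻¹ ≤ c₃ / 2 * (1 / η) := by
    have h2 : 2 / c₃ * η ≤ K * σ ^ 2 * l ^ 4 := by
      rw [hη]
      calc 2 / c₃ * (K₁ * σ ^ 2 * l ^ 4) = K₁ * (2 / c₃) * σ ^ 2 * l ^ 4 := by ring
        _ ≤ K * σ ^ 2 * l ^ 4 := by gcongr
    calc (K * σ ^ 2 * l ^ 4)⁻¹ ≤ (2 / c₃ * η)⁻¹ := inv_anti₀ (by positivity) h2
      _ = c₃ / 2 * (1 / η) := by
        field_simp
  calc ((K * σ ^ 2 * l ^ 4)⁻¹) ^ d ≤ (c₃ / 2 * (1 / η)) ^ d := by gcongr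
    _ = (c₃ / 2) ^ d * (1 / η) ^ d := mul_pow _ _ _
    _ ≤ c₃ / 2 * (1 / η) ^ d := by
      gcongr
      exact pow_le_of_le_one (by positivity) (by linarith) (by omega)

end Pool.Agent.LE.CL.H81
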