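import Pool.Agent.LE.StmtsP

/-!
# CRG: the criterion with numbers
-/

set_option autoImplicit false

open MeasureTheory ProbabilityTheory Function Filter

open scoped ENNReal BigOperators Topology NNReal

noncomputable section

namespace Pool.Agent.LE.CL.H81

open Pool.Agent.Anderson hiding box mem_box card_box
open Pool.Agent.Loc Pool.Agent.Mob Pool.Agent.Helper54.Bal
  Pool.Agent.Helper96.EXP Pool.Agent.BED
open Pool.Agent.LE.MN

theorem clu_mono_s {d : ℕ} {V : Site d → ℝ} {Λ : Finset (Site d)} {E s s' : ℝ}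
    {C C₂ B : Finset (Site d)} (hs : s ≤ s') (hC : C ⊆ C₂) :
    clu V Λ E s C B ⊆ clu V Λ E s' C₂ B := by
  intro y hy
  rw [mem_clu] at hy ⊢
  rcases hy with hy | ⟨hy, x, hx, hxy⟩
  · exact Or.inl (hC hy)
  · exact Or.inr ⟨hy, x, hC hx, (Real.exp_le_exp.2 (by linarith)).trans hxy⟩

theorem rch_mono_s {d : ℕ} {V : Site d → ℝ} {Λ : Finset (Site d)} {E s s' : ℝ} {b : Site d}
    {ρ : ℕ} (hs : s ≤ s') (j : ℕ) : rch V Λ E s b ρ j ⊆ rch V Λ E s' b ρ j := by
  induction j with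
  | zero => exact fun _ h => h
  | succ n ih =>
    rw [rch_succ, rch_succ]
    exact clu_mono_s hs ih

theorem crg_rat {X l r : ℝ} (hX : 0 ≤ X) (h : Real.log 2 ≤ l + r) :
    X ≤ X / Real.log 2 * (l + r) := by
  have h2 : (0 : ℝ) < Real.log 2 := Real.log_pos (by norm_num)
  have h1 : X / Real.log 2 * Real.log 2 = X := div_mul_cancel₀ X h2.ne'
  calc X = X / Real.log 2 * Real.log 2 := h1.symm
    _ ≤ X / Real.log 2 * (l + r) := mul_le_mul_of_nonneg_left h (div_nonneg hX h2.le)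

/-- the pair term -/
theorem crg_pair {d n : ℕ} {ρ σ l K₁ s' : ℝ} (hd0 : (1 : ℝ) ≤ d) (hn0 : (1 : ℝ) ≤ n)
    (hρ0 : (1 : ℝ) ≤ ρ) (hσl : |σ| = Real.exp (-l)) (hl2 : Real.log 2 ≤ l) (hl0 : 0 < l)
    (hlρ : 0 ≤ Real.log ρ) (hρ3 : 2 * ρ + 1 ≤ Real.exp (Real.log 3 + Real.log ρ))
    (hnR : (n : ℝ) ≤ Real.exp (d * (Real.log 3 + Real.log ρ)))
    (hK₁ : K₁ = 3 * d + 1 + (Real.log (16 * d) + 3 * d * Real.log 3) / Real.log 2)
    (hs' : K₁ * (l + Real.log ρ) ≤ s') :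
    d * (2 * ρ + 1) ^ (2 * d) * (16 / |σ| * Real.exp (-s')) ≤ 1 / n := by
  have hlog3 : 0 ≤ Real.log 3 := Real.log_nonneg (by norm_num)
  have hlog16 : 0 ≤ Real.log (16 * d) := Real.log_nonneg (by linarith only [hd0])
  obtain ⟨r, hr⟩ : ∃ r : ℝ, r = Real.log ρ := ⟨_, rfl⟩
  obtain ⟨q, hq⟩ : ∃ q : ℝ, q = Real.log 3 := ⟨_, rfl⟩
  obtain ⟨u, hu⟩ : ∃ u : ℝ, u = Real.log (16 * d) := ⟨_, rfl⟩
  rw [← hr] at hlρ hρ3 hnR hs'
  rw [← hq] at hlog3 hρ3 hnR hK₁
  rw [← hu] at hlog16 hK₁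
  rw [le_div_iff₀ (by linarith only [hn0])]
  have h0 : 0 ≤ 2 * ρ + 1 := by linarith only [hρ0]
  have h1 : (2 * ρ + 1) ^ (2 * d) ≤ Real.exp (2 * d * (q + r)) := by
    calc (2 * ρ + 1) ^ (2 * d) ≤ (Real.exp (q + r)) ^ (2 * d) := pow_le_pow_left₀ h0 hρ3 _
      _ = Real.exp (2 * d * (q + r)) := by
          rw [← Real.exp_nat_mul]
          push_cast
          rfl
  have h3 : 1 / |σ| = Real.exp l := by
    rw [hσl, Real.exp_neg, one_div, inv_inv]
  have h4 : (16 : ℝ) * d = Real.exp u := by rw [hu, Real.exp_log (by linarith only [hd0])]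
  have h5 : u + 3 * d * q + (3 * d + 1) * (l + r) ≤ s' := by
    have h6 : u + 3 * d * q ≤ (u + 3 * d * q) / Real.log 2 * (l + r) :=
      crg_rat (by positivity) (by linarith only [hl2, hlρ])
    have h8 : K₁ * (l + r) = (3 * d + 1) * (l + r) + (u + 3 * d * q) / Real.log 2 * (l + r) := by
      rw [hK₁]
      ring
    linarith only [h6, h8, hs']
  calc d * (2 * ρ + 1) ^ (2 * d) * (16 / |σ| * Real.exp (-s')) * n
      = (16 * d) * (2 * ρ + 1) ^ (2 * d) * (1 / |σ|) * Real.exp (-s') * n := by ring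
    _ = Real.exp u * (2 * ρ + 1) ^ (2 * d) * Real.exp l * Real.exp (-s') * n := by rw [h4, h3]
    _ ≤ Real.exp u * Real.exp (2 * d * (q + r)) *
        Real.exp l * Real.exp (-s') * Real.exp (d * (q + r)) := by
        refine mul_le_mul ?_ hnR (Nat.cast_nonneg n) (by positivity)
        refine mul_le_mul_of_nonneg_right ?_ (Real.exp_pos _).le
        refine mul_le_mul_of_nonneg_right ?_ (Real.exp_pos _).le
        exact mul_le_mul_of_nonneg_left h1 (Real.exp_pos _).le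
    _ = Real.exp (u + 2 * d * (q + r) + l + -s' + d * (q + r)) := by
        rw [← Real.exp_add, ← Real.exp_add, ← Real.exp_add, ← Real.exp_add]
    _ ≤ Real.exp 0 := by
        refine Real.exp_le_exp.2 ?_
        have h9 : 0 ≤ (3 * d : ℝ) * l := by positivity
        have h10 : u + 2 * d * (q + r) + l + -s' + d * (q + r) = u + 3 * d * q +
              (3 * d + 1) * (l + r) - s' - (3 * d * l + r) := by ring
        rw [h10]
        linarith only [h5, h9, hlρ]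
    _ = 1 := Real.exp_zero

/-- the oscillation -/
theorem crg_osc {d n : ℕ} {σ l r K₂ s' J A Co : ℝ} (hn0 : (1 : ℝ) ≤ n)
    (hσl : |σ| = Real.exp (-l)) (hl2 : Real.log 2 ≤ l) (hl0 : 0 < l) (hlρ : 0 ≤ r)
    (hnR : (n : ℝ) ≤ Real.exp (d * (Real.log 3 + r))) (hA : 0 < A) (hCo : 1 ≤ Co)
    (hJ0 : 1 ≤ J) (hs'1 : 1 ≤ s')
    (hK₂ : K₂ = Co * (A + d + (Real.log Co + d * Real.log 3) / Real.log 2))
    (hs' : K₂ * (l + r) ≤ s') :
    Co * |σ| ^ (-A) * Real.exp (-(2 * s' * J / Co)) ≤ 1 / n * (2 * s' * J) ^ d := by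
  have hlog3 : 0 ≤ Real.log 3 := Real.log_nonneg (by norm_num)
  have hlogCo : 0 ≤ Real.log Co := Real.log_nonneg hCo
  have hCo0 : 0 < Co := by linarith only [hCo]
  have h12 : s' ≤ 2 * s' * J := by
    calc s' = s' * 1 := (mul_one _).symm
      _ ≤ s' * J := mul_le_mul_of_nonneg_left hJ0 (by linarith only [hs'1])
      _ ≤ 2 * s' * J := by
        have : 0 ≤ s' * J := mul_nonneg (by linarith only [hs'1]) (by linarith only [hJ0])
        linarith only [this]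
  have h1 : 1 ≤ (2 * s' * J) ^ d := one_le_pow₀ (hs'1.trans h12)
  have hn1 : (0 : ℝ) < n := by linarith only [hn0]
  have h3 : Co * |σ| ^ (-A) * Real.exp (-(2 * s' * J / Co)) ≤ 1 / n := by
    rw [le_div_iff₀ hn1]
    have h4 : |σ| ^ (-A) = Real.exp (A * l) := by
      rw [hσl, ← Real.exp_mul]
      congr 1
      ring
    have h5 : Real.exp (Real.log Co) = Co := Real.exp_log hCo0
    obtain ⟨q, hq⟩ : ∃ q : ℝ, q = Real.log 3 := ⟨_, rfl⟩
    obtain ⟨u, hu⟩ : ∃ u : ℝ, u = Real.log Co := ⟨_, rfl⟩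
    rw [← hq] at hlog3 hnR hK₂
    rw [← hu] at hlogCo hK₂ h5
    have h6 : u + d * q + (A + d) * (l + r) ≤ 2 * s' * J / Co := by
      rw [le_div_iff₀ hCo0]
      have h7 : u + d * q ≤ (u + d * q) / Real.log 2 * (l + r) :=
        crg_rat (by positivity) (by linarith only [hl2, hlρ])
      have h9 : K₂ * (l + r) = ((A + d) * (l + r) +
          (u + d * q) / Real.log 2 * (l + r)) * Co := by
        rw [hK₂]
        ring
      have h10 : (u + d * q + (A + d) * (l + r)) * Co ≤ K₂ * (l + r) := by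
        rw [h9]
        apply mul_le_mul_of_nonneg_right _ hCo0.le
        linarith only [h7]
      exact h10.trans (hs'.trans h12)
    calc Co * |σ| ^ (-A) * Real.exp (-(2 * s' * J / Co)) * n
        = Real.exp u * Real.exp (A * l) * Real.exp (-(2 * s' * J / Co)) * n := by rw [h5, h4]
      _ ≤ Real.exp u * Real.exp (A * l) * Real.exp (-(2 * s' * J / Co)) *
          Real.exp (d * (q + r)) := mul_le_mul_of_nonneg_left hnR (by positivity)
      _ = Real.exp (u + A * l + -(2 * s' * J / Co) + d * (q + r)) := by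
          rw [← Real.exp_add, ← Real.exp_add, ← Real.exp_add]
      _ ≤ Real.exp 0 := by
          refine Real.exp_le_exp.2 ?_
          have h13 : 0 ≤ (d : ℝ) * l := by positivity
          have h14 : 0 ≤ A * r := by positivity
          have h15 : u + A * l + -(2 * s' * J / Co) + d * (q + r) =
              u + d * q + (A + d) * (l + r) - 2 * s' * J / Co - (d * l + A * r) := by ring
          rw [h15]
          linarith only [h6, h13, h14]
      _ = 1 := Real.exp_zero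
  have hinvn : (0 : ℝ) ≤ 1 / n := by positivity
  calc Co * |σ| ^ (-A) * Real.exp (-(2 * s' * J / Co)) ≤ 1 / n * 1 := by
        rw [mul_one]
        exact h3
    _ ≤ 1 / n * (2 * s' * J) ^ d := mul_le_mul_of_nonneg_left h1 hinvn

/-- the condition of the criterion -/
theorem crg_lt {d n : ℕ} {C₁ D κ T Y : ℝ} (hd : 1 ≤ d) (hn0 : (1 : ℝ) ≤ n)
    (hC₁ : C₁ = 10 * 3 ^ d + 4 * d * 6 ^ d) (hC₁0 : 0 < C₁)
    (hD : D = (2 * C₁) ^ (1 / (d : ℝ))) (hT : 0 < T)
    (hκ : κ = 60 * D * T * (n : ℝ) ^ (-(1 / (d : ℝ)))) (hY : Y ≤ 1 / n) :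
    4 * 3 ^ d * (1 / n + Y) + 2 * 3 ^ d / n + 2 ^ d * (4 * 3 ^ d * (d * (1 / n))) <
      (κ / (60 * T)) ^ d := by
  have hd0 : (0 : ℝ) < d := by exact_mod_cast hd
  have hn1 : (0 : ℝ) < n := by linarith only [hn0]
  have hκd : (κ / (60 * T)) ^ d = 2 * C₁ / n := by
    have h1 : κ / (60 * T) = D * (n : ℝ) ^ (-(1 / (d : ℝ))) := by
      rw [hκ]
      field_simp
    rw [h1, mul_pow, hD, ← Real.rpow_natCast, ← Real.rpow_mul (by positivity),
      ← Real.rpow_natCast, ← Real.rpow_mul (by positivity), one_div, neg_mul,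
      inv_mul_cancel₀ hd0.ne', Real.rpow_one, Real.rpow_neg (by positivity),
      Real.rpow_one, div_eq_mul_inv]
  rw [hκd]
  have h6 : (2 : ℝ) ^ d * 3 ^ d = 6 ^ d := by
    rw [← mul_pow]
    norm_num
  calc 4 * 3 ^ d * (1 / n + Y) + 2 * 3 ^ d / n + 2 ^ d * (4 * 3 ^ d * (d * (1 / n)))
      ≤ 4 * 3 ^ d * (1 / n + 1 / n) + 2 * 3 ^ d / n +
        2 ^ d * (4 * 3 ^ d * (d * (1 / n))) := by
        have h7 : 4 * (3:ℝ) ^ d * (1 / n + Y) ≤ 4 * 3 ^ d * (1 / n + 1 / n) :=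
          mul_le_mul_of_nonneg_left (by linarith only [hY]) (by positivity)
        linarith only [h7]
    _ = (10 * 3 ^ d + 4 * d * (2 ^ d * 3 ^ d)) / n := by ring
    _ = C₁ / n := by rw [h6, ← hC₁]
    _ < 2 * C₁ / n := div_lt_div_of_pos_right (by linarith only [hC₁0]) hn1

/-- CRG -/
theorem crg (cr3 : Cr3Stmt) (ost : OstStmt) (inf : InfStmt) : CrgStmt := by
  intro d hd
  obtain ⟨A, Co, hA, hCo, host⟩ := ost d hd
  have hd0 : (1 : ℝ) ≤ d := by exact_mod_cast hd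
  obtain ⟨C₁, hC₁⟩ : ∃ C₁ : ℝ, C₁ = 10 * 3 ^ d + 4 * d * 6 ^ d := ⟨_, rfl⟩
  have hC₁0 : 0 < C₁ := by rw [hC₁]; positivity
  have h2 : (0 : ℝ) < Real.log 2 := Real.log_pos (by norm_num)
  have hlogCo : 0 ≤ Real.log Co := Real.log_nonneg hCo
  have hlog3 : 0 ≤ Real.log 3 := Real.log_nonneg (by norm_num)
  have hlog16 : 0 ≤ Real.log (16 * d) := Real.log_nonneg (by linarith only [hd0])
  -- the constant `K`
  obtain ⟨K₁, hK₁⟩ : ∃ K₁ : ℝ, K₁ = 3 * d + 1 +
    (Real.log (16 * d) + 3 * d * Real.log 3) / Real.log 2 := ⟨_, rfl⟩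
  obtain ⟨K₂, hK₂⟩ : ∃ K₂ : ℝ, K₂ = Co * (A + d +
    (Real.log Co + d * Real.log 3) / Real.log 2) := ⟨_, rfl⟩
  have hK₁0 : 1 ≤ K₁ := by
    have h : 0 ≤ (Real.log (16 * d) + 3 * d * Real.log 3) / Real.log 2 := by positivity
    rw [hK₁]
    linarith only [h, hd0]
  have hK₂0 : 0 ≤ K₂ := by
    rw [hK₂]
    positivity
  obtain ⟨K, hK⟩ : ∃ K : ℝ, K = K₁ + K₂ := ⟨_, rfl⟩
  have hK0 : 1 ≤ K := by linarith only [hK, hK₁0, hK₂0]
  obtain ⟨D, hD⟩ : ∃ D : ℝ, D = (2 * C₁) ^ (1 / (d : ℝ)) := ⟨_, rfl⟩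
  have hD0 : 0 < D := by rw [hD]; exact Real.rpow_pos_of_pos (by linarith only [hC₁0]) _
  have hDK : 0 < 120 * D * K :=
    mul_pos (mul_pos (by norm_num) hD0) (by linarith only [hK0])
  refine ⟨1 + 120 * D * K, by linarith only [hDK], ?_⟩
  intro σ E s q g J n ρ hσ hσ2 hE hs hJ hn hρ hg hq hqn hrch
  have hσ0 : σ ≠ 0 := abs_pos.1 hσ
  have hJ0 : (1 : ℝ) ≤ J := by exact_mod_cast hJ
  have hn0 : (1 : ℝ) ≤ n := by exact_mod_cast hn
  have hn1 : (0 : ℝ) < n := by linarith only [hn0]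
  have hρ0 : (1 : ℝ) ≤ ρ := by exact_mod_cast hρ
  obtain ⟨l, hl⟩ : ∃ l : ℝ, l = Real.log (1 / |σ|) := ⟨_, rfl⟩
  have hl2 : Real.log 2 ≤ l := by
    rw [hl]
    refine Real.log_le_log (by norm_num) ?_
    rw [le_div_iff₀ hσ]
    linarith only [hσ2]
  have hlρ : 0 ≤ Real.log ρ := Real.log_nonneg hρ0
  have hl0 : 0 < l := lt_of_lt_of_le h2 hl2
  have hσl : |σ| = Real.exp (-l) := by
    rw [hl, one_div, Real.log_inv, neg_neg, Real.exp_log hσ]
  -- `n ≤ (2 ρ + 1)^d`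
  have hnρ : n ≤ (2 * ρ + 1) ^ d := by
    by_contra hcon
    push Not at hcon
    have h1 := hrch ρ 0 (fun x hx => hx)
    have h3 : {V : Site d → ℝ | ¬ n ≤ (rch V (box 0 ρ) E s 0 ρ J).card} = Set.univ := by
      rw [Set.eq_univ_iff_forall]
      intro V
      rw [Set.mem_ofPred_eq, not_le]
      refine lt_of_le_of_lt (Finset.card_le_card (rch_subset_box J)) ?_
      rw [card_box]
      exact hcon
    rw [h3, measure_univ, ← ENNReal.ofReal_one, ENNReal.ofReal_le_ofReal_iff hq] at h1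
    have h4 : 3 ^ d ≤ (2 * ρ + 1) ^ d := Nat.pow_le_pow_left (by omega) d
    have h5 : 3 ^ 1 ≤ 3 ^ d := Nat.pow_le_pow_right (by norm_num) hd
    have h6 : 2 ≤ n := by omega
    have h7 : (2 : ℝ) ≤ n := by exact_mod_cast h6
    have h8 : (n : ℝ) ≤ q * n := le_mul_of_one_le_left hn1.le h1
    linarith only [h7, h8, hqn]
  have hρ3 : (2 * (ρ : ℝ) + 1) ≤ Real.exp (Real.log 3 + Real.log ρ) := by
    rw [Real.exp_add, Real.exp_log (by norm_num), Real.exp_log (by linarith only [hρ0])]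
    linarith only [hρ0]
  have hnR : (n : ℝ) ≤ Real.exp (d * (Real.log 3 + Real.log ρ)) := by
    have h1 : (n : ℝ) ≤ (2 * (ρ : ℝ) + 1) ^ d := by exact_mod_cast hnρ
    refine h1.trans ?_
    rw [Real.exp_nat_mul]
    exact pow_le_pow_left₀ (by linarith only [hρ0]) hρ3 d
  obtain ⟨s', hs'⟩ : ∃ s' : ℝ, s' = s + K * (l + Real.log ρ) := ⟨_, rfl⟩
  have hlρ' : 0 ≤ l + Real.log ρ := by linarith only [hl0, hlρ]
  have hKl : 0 ≤ K * (l + Real.log ρ) := mul_nonneg (by linarith only [hK0]) hlρ'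
  have hss' : s ≤ s' := by
    rw [hs']
    linarith only [hKl]
  have hs'1 : 1 ≤ s' := hs.trans hss'
  have hs'0 : 0 < s' := by linarith only [hs'1]
  have hs'K : s' ≤ K * (s + l + Real.log ρ) := by
    rw [hs']
    have h : s ≤ K * s := le_mul_of_one_le_left (by linarith only [hs]) hK0
    linarith only [h]
  have hinvn : (0 : ℝ) < 1 / n := one_div_pos.2 hn1
  have hqn' : q ≤ 1 / n := by
    rw [le_div_iff₀ hn1]
    exact hqn
  have hKK : K * (l + Real.log ρ) = K₁ * (l + Real.log ρ) + K₂ * (l + Real.log ρ) := by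
    rw [hK]
    ring
  have hK₁l : 0 ≤ K₁ * (l + Real.log ρ) := mul_nonneg (by linarith only [hK₁0]) hlρ'
  have hK₂l : 0 ≤ K₂ * (l + Real.log ρ) := mul_nonneg hK₂0 hlρ'
  -- the pair term
  have hpair : d * (2 * (ρ : ℝ) + 1) ^ (2 * d) * (16 / |σ| * Real.exp (-s')) ≤ 1 / n :=
    crg_pair hd0 hn0 hρ0 hσl hl2 hl0 hlρ hρ3 hnR hK₁
      (by rw [hs']; linarith only [hKK, hK₂l, hs])
  -- the oscillation
  have hosc : Co * |σ| ^ (-A) * Real.exp (-(2 * s' * J / Co)) ≤ 1 / n * (2 * s' * J) ^ d :=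
    crg_osc hn0 hσl hl2 hl0 hlρ hnR (by linarith only [hA]) hCo hJ0 hs'1 hK₂
      (by rw [hs']; linarith only [hKK, hK₁l, hs])
  -- the rate `κ`
  obtain ⟨κ, hκ⟩ : ∃ κ : ℝ, κ = 60 * D * (s' * J) * (n : ℝ) ^ (-(1 / (d : ℝ))) := ⟨_, rfl⟩
  have hnp : 0 < (n : ℝ) ^ (-(1 / (d : ℝ))) := Real.rpow_pos_of_pos hn1 _
  have hsJ : 0 < s' * J := mul_pos hs'0 (by linarith only [hJ0])
  have hκ0 : 0 < κ := by rw [hκ]; exact mul_pos (mul_pos (mul_pos (by norm_num) hD0) hsJ) hnp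
  have hlt : 4 * 3 ^ d * (1 / n + d * (2 * (ρ : ℝ) + 1) ^ (2 * d) *
      (16 / |σ| * Real.exp (-s'))) + 2 * 3 ^ d / n +
      2 ^ d * (4 * 3 ^ d * (d * (1 / n))) < (κ / (60 * (s' * J))) ^ d :=
    crg_lt hd hn0 hC₁ hC₁0 hD hsJ hκ hpair
  -- conclusion
  have hgκ : g ≤ 2 * κ := by
    by_contra hcon
    push Not at hcon
    obtain ⟨L₀, hL₀⟩ := cr3 d ρ n J σ E κ s' (1 / n) (1 / n) hd hσ0 hn hJ hs'0 hκ0 hinvn hinvn
      hlt (fun N S c hS hSN hc => (host σ E (2 * s' * J) N S c hσ0 (by linarith only [hσ2]) hE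
        (mul_nonneg (mul_nonneg (by norm_num) hs'0.le) (by linarith only [hJ0])) hS hSN hc).trans
          (ENNReal.ofReal_le_ofReal hosc))
      (fun N b hb => (measure_mono (fun V hV => by
        rw [Set.mem_ofPred_eq] at hV ⊢
        exact fun h => hV (h.trans (Finset.card_le_card (rch_mono_s hss' J))))).trans
          ((hrch N b hb).trans (ENNReal.ofReal_le_ofReal hqn')))
    obtain ⟨L, N, a, hL, hbox, hP⟩ := inf d σ E g (2 * κ) hd hσ0 hg (by linarith only [hκ0])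
      hcon L₀
    refine hL₀ L N a hL hbox ?_
    have h1 : 2 * κ / 2 = κ := by ring
    rw [h1] at hP
    exact hP
  refine hgκ.trans ?_
  have h1 : 2 * κ = 120 * D * J * s' * (n : ℝ) ^ (-(1 / (d : ℝ))) := by
    rw [hκ]
    ring
  rw [h1]
  have h3 : 0 ≤ J * (s + l + Real.log ρ) := by
    apply mul_nonneg (by linarith only [hJ0])
    linarith only [hs, hlρ']
  have h4 : 0 ≤ 120 * D * J := mul_nonneg (mul_nonneg (by norm_num) hD0.le)
    (by linarith only [hJ0])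
  have h5 : 120 * D * J * s' ≤ 120 * D * J * (K * (s + l + Real.log ρ)) :=
    mul_le_mul_of_nonneg_left hs'K h4
  have h6 : 120 * D * J * (K * (s + l + Real.log ρ)) =
    120 * D * K * (J * (s + l + Real.log ρ)) := by ring
  rw [← hl]
  refine mul_le_mul_of_nonneg_right ?_ hnp.le
  linarith only [h3, h5, h6]

end Pool.Agent.LE.CL.H81
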